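import Mathlib
import Pool.Agent.Helper11_PGL.StmtK

/-!
# Modules DETL and MATH of part K: the determinants of the height inequality
-/

namespace PGL.DetlH8

open Matrix PGL

variable {E : Type*} [CommRing E] {H δ : ℕ}

/-- the matrix whose determinant is `bigDet` -/
def bigMat (A B : Matrix (Fin (H + δ + δ)) (Fin (H + δ)) E) (σ : Fin H ⊕ Fin δ ≃ Fin (H + δ)) :
    Matrix (Fin (H + δ) ⊕ Fin δ) (Fin (H + δ) ⊕ Fin δ) E :=
  Matrix.of (fun (i j : Fin (H + δ) ⊕ Fin δ) =>
    Sum.elim (fun j => A (finSumFinEquiv i) j)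
      (fun j => B (finSumFinEquiv i) (σ (Sum.inr j))) j)

/-- the matrix whose determinant is `minDet` -/
def minMat (P : Matrix (Fin (H + δ)) (Fin H) E) (σ : Fin H ⊕ Fin δ ≃ Fin (H + δ)) :
    Matrix (Fin H) (Fin H) E := Matrix.of (fun (i j : Fin H) => P (σ (Sum.inl i)) j)

theorem bigDet_eq (A B : Matrix (Fin (H + δ + δ)) (Fin (H + δ)) E)
    (σ : Fin H ⊕ Fin δ ≃ Fin (H + δ)) : bigDet A B σ = (bigMat A B σ).det := rfl

theorem minDet_eq (P : Matrix (Fin (H + δ)) (Fin H) E)
    (σ : Fin H ⊕ Fin δ ≃ Fin (H + δ)) : minDet P σ = (minMat P σ).det := rfl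

/-- the rearrangement of the indices -/
def eqv (σ : Fin H ⊕ Fin δ ≃ Fin (H + δ)) :
    ((Fin (H + δ) ⊕ Fin δ) ⊕ Fin H) ≃ (Fin (H + δ) ⊕ Fin (H + δ)) :=
  (Equiv.sumAssoc _ _ _).trans
    (Equiv.sumCongr (Equiv.refl _) ((Equiv.sumComm _ _).trans σ))

@[simp] theorem eqv_ll (σ : Fin H ⊕ Fin δ ≃ Fin (H + δ)) (a : Fin (H + δ)) :
    eqv σ (Sum.inl (Sum.inl a)) = Sum.inl a := rfl

@[simp] theorem eqv_lr (σ : Fin H ⊕ Fin δ ≃ Fin (H + δ)) (a : Fin δ) :
    eqv σ (Sum.inl (Sum.inr a)) = Sum.inr (σ (Sum.inr a)) := rfl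

@[simp] theorem eqv_r (σ : Fin H ⊕ Fin δ ≃ Fin (H + δ)) (a : Fin H) :
    eqv σ (Sum.inr a) = Sum.inr (σ (Sum.inl a)) := rfl

/-- `[[A, B], [0, J]]` -/
def TT (A B : Matrix (Fin (H + δ + δ)) (Fin (H + δ)) E) (σ : Fin H ⊕ Fin δ ≃ Fin (H + δ)) :
    Matrix ((Fin (H + δ) ⊕ Fin δ) ⊕ Fin H) (Fin (H + δ) ⊕ Fin (H + δ)) E :=
  Matrix.fromBlocks (Matrix.of fun i j => A (finSumFinEquiv i) j)
    (Matrix.of fun i j => B (finSumFinEquiv i) j) 0
    (Matrix.of fun i j => if σ (Sum.inl i) = j then 1 else 0)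

/-- `[[1, 0, -Q], [0, J, P]]` -/
def XX (P Q : Matrix (Fin (H + δ)) (Fin H) E) (σ : Fin H ⊕ Fin δ ≃ Fin (H + δ)) :
    Matrix (Fin (H + δ) ⊕ Fin (H + δ)) ((Fin (H + δ) ⊕ Fin δ) ⊕ Fin H) E :=
  Matrix.fromBlocks
    (Matrix.of fun i j => Sum.elim (fun j => if i = j then 1 else 0) (fun _ => 0) j)
    (-Q)
    (Matrix.of fun i j => Sum.elim (fun _ => 0) (fun j => if i = σ (Sum.inr j) then 1 else 0) j)
    P

theorem tt_det (A B : Matrix (Fin (H + δ + δ)) (Fin (H + δ)) E)
    (σ : Fin H ⊕ Fin δ ≃ Fin (H + δ)) :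
    ((TT A B σ).submatrix id (eqv σ)).det = bigDet A B σ := by
  have h : (TT A B σ).submatrix id (eqv σ) =
      Matrix.fromBlocks (bigMat A B σ)
        (Matrix.of fun i j => B (finSumFinEquiv i) (σ (Sum.inl j))) 0 1 := by
    ext i j
    rcases i with i | i
    · rcases j with (j | j) | j
      · simp [TT, bigMat]
      · simp [TT, bigMat]
      · simp [TT]
    · rcases j with (j | j) | j
      · simp [TT]
      · simp [TT]
      · simp [TT, Matrix.one_apply]
  rw [h, Matrix.det_fromBlocks_zero₂₁, Matrix.det_one, mul_one, bigDet_eq]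

theorem xx_det (P Q : Matrix (Fin (H + δ)) (Fin H) E)
    (σ : Fin H ⊕ Fin δ ≃ Fin (H + δ)) :
    ((XX P Q σ).submatrix (eqv σ) id).det = minDet P σ := by
  have h : (XX P Q σ).submatrix (eqv σ) id =
      Matrix.fromBlocks (1 : Matrix (Fin (H + δ) ⊕ Fin δ) (Fin (H + δ) ⊕ Fin δ) E)
        (Matrix.of fun i j => Sum.elim (fun i => - Q i j) (fun i => P (σ (Sum.inr i)) j) i)
        0 (minMat P σ) := by
    ext i j
    rcases i with (i | i) | i
    · rcases j with (j | j) | j
      · simp [XX, Matrix.one_apply]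
      · simp [XX]
      · simp [XX]
    · rcases j with (j | j) | j
      · simp [XX]
      · simp [XX, Matrix.one_apply]
      · simp [XX]
    · rcases j with (j | j) | j
      · simp [XX]
      · simp [XX]
      · simp [XX, minMat]
  rw [h, Matrix.det_fromBlocks_zero₂₁, Matrix.det_one, one_mul, minDet_eq]

theorem mul_det (A B : Matrix (Fin (H + δ + δ)) (Fin (H + δ)) E)
    (P Q : Matrix (Fin (H + δ)) (Fin H) E) (hAQ : A * Q = B * P)
    (σ σ' : Fin H ⊕ Fin δ ≃ Fin (H + δ)) :
    (TT A B σ * XX P Q σ').det = bigDet A B σ' * minDet P σ := by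
  have h : TT A B σ * XX P Q σ' =
      Matrix.fromBlocks (bigMat A B σ') 0
        (Matrix.of fun i j => Sum.elim (fun _ => 0)
          (fun j => if σ (Sum.inl i) = σ' (Sum.inr j) then 1 else 0) j)
        (minMat P σ) := by
    rw [TT, XX, Matrix.fromBlocks_multiply]
    congr 1
    · ext i j
      rcases j with j | j
      · simp [Matrix.mul_apply, bigMat]
      · simp [Matrix.mul_apply, bigMat]
    · ext i j
      have := congrFun (congrFun hAQ (finSumFinEquiv i)) j
      rw [Matrix.mul_apply, Matrix.mul_apply] at this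
      simp only [Matrix.add_apply, Matrix.mul_apply, Matrix.of_apply, Matrix.neg_apply,
        Matrix.zero_apply, mul_neg, Finset.sum_neg_distrib]
      rw [this]
      simp
    · ext i j
      rcases j with j | j
      · simp [Matrix.mul_apply]
      · simp [Matrix.mul_apply]
    · ext i j
      simp [Matrix.mul_apply, minMat]
  rw [h, Matrix.det_fromBlocks_zero₁₂, bigDet_eq, minDet_eq]

end PGL.DetlH8

open PGL.DetlH8 in
/-- module DETL -/
theorem PGL.detl_h8.{u} : PGL.DetlStmt.{u} := by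
  intro E _ H δ A B P Q hAQ σ σ'
  have h1 := mul_det A B P Q hAQ σ σ'
  have h2 : TT A B σ * XX P Q σ' =
      ((TT A B σ).submatrix id (eqv σ)) * ((XX P Q σ').submatrix (eqv σ) id) := by
    rw [Matrix.submatrix_mul_equiv]
    simp
  have h3 : (XX P Q σ').submatrix (eqv σ) id =
      ((XX P Q σ').submatrix (eqv σ') id).submatrix ((eqv σ).trans (eqv σ').symm) id := by
    ext i j
    simp
  rw [h2, Matrix.det_mul, tt_det, h3, Matrix.det_permute, xx_det] at h1
  rcases Int.units_eq_one_or (Equiv.Perm.sign ((eqv σ).trans (eqv σ').symm)) with h | h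
  · left
    rw [h] at h1
    simpa using h1
  · right
    rw [h] at h1
    rw [← h1]
    simp

namespace PGL.DetlH8

open Matrix PGL

theorem mulMat_smul {k E : Type*} [Field k] [Field E] [Algebra k E] {l a b : ℕ}
    (M : Fin (l + 1) → Matrix (Fin a) (Fin b) k) (y : Fin (l + 1) → E) (x : E) (i : Fin a)
    (j : Fin b) : mulMat M (fun s => x * y s) i j = x * mulMat M y i j := by
  simp only [mulMat, Matrix.sum_apply, Matrix.smul_apply, smul_eq_mul, Finset.mul_sum, mul_assoc]

theorem mulMat_deriv {k E : Type*} [Field k] [Field E] [Algebra k E] {l a b : ℕ}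
    (M : Fin (l + 1) → Matrix (Fin a) (Fin b) k) (y : Fin (l + 1) → E) (D : Derivation ℤ E E)
    (x : E) (i : Fin a) (j : Fin b) :
    mulMat M (fun s => D (x * y s)) i j =
      D x * mulMat M y i j + x * mulMat M (fun s => D (y s)) i j := by
  simp only [mulMat, Matrix.sum_apply, Matrix.smul_apply, smul_eq_mul, Finset.mul_sum,
    Derivation.leibniz, ← Finset.sum_add_distrib]
  refine Finset.sum_congr rfl fun s _ => ?_
  ring

end PGL.DetlH8

open PGL.DetlH8 in
/-- module MATH -/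
theorem PGL.math_h8.{u} : PGL.MatHStmt.{u} := by
  intro k E _ _ _ l N δ X y D x σ
  constructor
  · rw [bigDet_eq, bigDet_eq]
    have h : bigMat (mulMat X.M1 (fun s => x * y s)) (mulMat X.M1 (fun s => D (x * y s))) σ =
        bigMat (mulMat X.M1 y) (mulMat X.M1 (fun s => D (y s))) σ *
          Matrix.fromBlocks (x • (1 : Matrix (Fin (X.H + δ)) (Fin (X.H + δ)) E))
            (Matrix.of fun a j => if a = σ (Sum.inr j) then D x else 0) 0
            (x • (1 : Matrix (Fin δ) (Fin δ) E)) := by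
      ext i j
      rcases j with j | j
      · simp only [bigMat, Matrix.mul_apply, Fintype.sum_sum_type, Matrix.of_apply,
          Sum.elim_inl, Sum.elim_inr, Matrix.fromBlocks_apply₁₁, Matrix.fromBlocks_apply₂₁,
          Matrix.smul_apply, Matrix.one_apply, Matrix.zero_apply, smul_eq_mul, mulMat_smul]
        simp [mul_comm]
      · simp only [bigMat, Matrix.mul_apply, Fintype.sum_sum_type, Matrix.of_apply,
          Sum.elim_inl, Sum.elim_inr, Matrix.fromBlocks_apply₁₂, Matrix.fromBlocks_apply₂₂,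
          Matrix.smul_apply, Matrix.one_apply, smul_eq_mul, mulMat_deriv]
        simp [mul_comm]
    rw [h, Matrix.det_mul, Matrix.det_fromBlocks_zero₂₁, Matrix.det_smul, Matrix.det_smul]
    simp only [Fintype.card_fin, Matrix.det_one, mul_one]
    ring
  · rw [minDet_eq, minDet_eq]
    have h : minMat (mulMat X.M0 (fun s => x * y s)) σ = x • minMat (mulMat X.M0 y) σ := by
      ext i j
      simp only [minMat, Matrix.of_apply, Matrix.smul_apply, smul_eq_mul, mulMat_smul]
    rw [h, Matrix.det_smul, Fintype.card_fin]
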